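import Mathlib

/-!
# Abel–Jacobi maps of smooth projective schemes over number fields inside `ℂ`
-/

set_option autoImplicit false

open IntermediateField

namespace Pool.Agent.X264.AJ

universe u

/-- The complex embeddings of a subfield `K` of `ℂ`. -/
abbrev Emb (K : IntermediateField ℚ ℂ) := K →ₐ[ℚ] ℂ

/-- The inclusion of `K` in `ℂ`. -/
noncomputable def incl (K : IntermediateField ℚ ℂ) : Emb K := K.val

/-- The restriction to `K` of a complex embedding of `L`. -/
noncomputable def res {K L : IntermediateField ℚ ℂ} (h : K ≤ L) (τ : Emb L) : Emb K :=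
  τ.comp (inclusion h)

/-- Complex conjugation. -/
noncomputable def conj : ℂ →ₐ[ℚ] ℂ := (Complex.conjAe.restrictScalars ℚ).toAlgHom

/-- The complex conjugate of an embedding. -/
noncomputable def bar {K : IntermediateField ℚ ℂ} (σ : Emb K) : Emb K := conj.comp σ

/-- The composition of an embedding with an isomorphism. -/
noncomputable def emb {K K' : IntermediateField ℚ ℂ} (e : K ≃ₐ[ℚ] K') (σ : Emb K') : Emb K :=
  σ.comp e.toAlgHom

/-- The subfield `ℝ` of `ℂ`. -/
noncomputable def reals : IntermediateField ℚ ℂ :=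
  ((Algebra.ofId ℝ ℂ).restrictScalars ℚ).fieldRange

/-- Cycles and Abel–Jacobi maps over number fields `K ⊂ ℂ`: `Var K` are the smooth projective
`K`-schemes, `rat X` says that `X` is geometrically integral and rational over `K`,
`A X i = CH^i(X)^0 ⊗ ℚ` are the homologically trivial cycles of codimension `i`, and for a complex
embedding `σ` of `K`, `J X i σ = J^i(X_σ) ⊗ ℚ` is the intermediate Jacobian of the complex variety
`X_σ = X ×_{K,σ} ℂ`, and `aj X i σ : A X i → J X i σ` is the Abel–Jacobi map. -/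
structure Sys where
  Var : IntermediateField ℚ ℂ → Type u
  dim : ∀ {K}, Var K → ℕ
  rat : ∀ {K}, Var K → Prop
  A : ∀ {K}, Var K → ℕ → Type u
  J : ∀ {K}, Var K → ℕ → Emb K → Type u
  [grpA : ∀ {K} (X : Var K) (i : ℕ), AddCommGroup (A X i)]
  [modA : ∀ {K} (X : Var K) (i : ℕ), Module ℚ (A X i)]
  [grpJ : ∀ {K} (X : Var K) (i : ℕ) (σ : Emb K), AddCommGroup (J X i σ)]
  [modJ : ∀ {K} (X : Var K) (i : ℕ) (σ : Emb K), Module ℚ (J X i σ)]
  aj : ∀ {K} (X : Var K) (i : ℕ) (σ : Emb K), A X i →ₗ[ℚ] J X i σ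

attribute [instance] Sys.grpA Sys.modA Sys.grpJ Sys.modJ

namespace Sys

variable (T : Sys.{u})

/-- An injective linear map `f : A^i(X) → A^j(X')` such that `f z` is in the kernel of `AJ_σ` for
`X'` if and only if `z` is in the kernel of `AJ_τ` for `X` for all `τ` in the set `S σ`. -/
def Carries {K L : IntermediateField ℚ ℂ} (X : T.Var K) (i : ℕ) (X' : T.Var L) (j : ℕ)
    (S : Emb L → Set (Emb K)) : Prop :=
  ∃ f : T.A X i →ₗ[ℚ] T.A X' j, Function.Injective f ∧
    ∀ (σ : Emb L) (z : T.A X i), T.aj X' j σ (f z) = 0 ↔ ∀ τ ∈ S σ, T.aj X i τ z = 0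

/-- Base change from `K` to a number field `L ⊃ K`: `z ↦ z_L` is injective with rational
coefficients, and `(X_L)_τ = X_σ`, where `σ` is the restriction of `τ`. -/
def HasBaseChange : Prop :=
  ∀ {K L : IntermediateField ℚ ℂ} (h : K ≤ L), FiniteDimensional ℚ L → ∀ X : T.Var K,
    ∃ X' : T.Var L, ∀ i, T.Carries X i X' i fun τ => {res h τ}

/-- Restriction of scalars from a number field `L` to `K ⊂ L`: a smooth projective `L`-scheme `X`
is also a smooth projective `K`-scheme `X'`, with the same cycles, and `X'_σ` is the disjoint union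
of the `X_τ`, where `τ` runs through the extensions of `σ` to `L`. -/
def HasRestriction : Prop :=
  ∀ {K L : IntermediateField ℚ ℂ} (h : K ≤ L), FiniteDimensional ℚ L → ∀ X : T.Var L,
    ∃ X' : T.Var K, ∀ i, T.Carries X i X' i fun σ => {τ | res h τ = σ}

/-- Transport of structure: by an isomorphism `e : K → K'`, a smooth projective `K`-scheme `X` is a
smooth projective `K'`-scheme `X'`, and `X'_σ = X_{σ e}`. -/
def HasTransport : Prop :=
  ∀ {K K' : IntermediateField ℚ ℂ} (e : K ≃ₐ[ℚ] K'), FiniteDimensional ℚ K → ∀ X : T.Var K,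
    ∃ X' : T.Var K', ∀ i, T.Carries X i X' i fun σ => {emb e σ}

/-- Complex conjugation `X_σ(ℂ) → X_{σ'}(ℂ)`, where `σ'` is the conjugate of `σ`, transforms the
Abel–Jacobi map of `X_σ` into the one of `X_{σ'}`. -/
def HasConjugation : Prop :=
  ∀ {K : IntermediateField ℚ ℂ} (X : T.Var K) (i : ℕ) (σ : Emb K) (z : T.A X i),
    T.aj X i (bar σ) z = 0 ↔ T.aj X i σ z = 0

/-- A smooth projective `X` is a closed subscheme of codimension at least two of a projective space
`P^N`; the blow-up `R` of `P^N` in `X` is geometrically integral and rational, and `CH^i(X)` is a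
direct summand of `CH^{i+1}(R)` (for all `i`), compatibly with the Abel–Jacobi maps. -/
def HasBlowUp : Prop :=
  ∀ {K : IntermediateField ℚ ℂ} (X : T.Var K), ∃ R : T.Var K, T.rat R ∧
    ∀ i, T.Carries X i R (i + 1) fun σ => {σ}

/-- `CH^i(X)` is a direct summand of `CH^{i+j}(X × P^n)` for `j ≤ n`. -/
def HasProjectiveSpaces : Prop :=
  ∀ {K : IntermediateField ℚ ℂ} (X : T.Var K) (n : ℕ), ∃ X' : T.Var K,
    T.dim X' = T.dim X + n ∧ (T.rat X → T.rat X') ∧
      ∀ i j, j ≤ n → T.Carries X i X' (i + j) fun σ => {σ}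

/-- The formal properties which are used. -/
structure IsAJ : Prop where
  baseChange : T.HasBaseChange
  restriction : T.HasRestriction
  transport : T.HasTransport
  conjugation : T.HasConjugation
  blowUp : T.HasBlowUp
  projectiveSpaces : T.HasProjectiveSpaces

/-- For all smooth projective `K`-schemes `X` and all `i ≥ 1`, the Abel–Jacobi map
`CH^i(X)^0 → J^i(X ×_K ℂ)` is injective up to torsion. -/
def Inj (K : IntermediateField ℚ ℂ) : Prop :=
  ∀ (X : T.Var K) (i : ℕ), 1 ≤ i → ∀ z : T.A X i, T.aj X i (incl K) z = 0 → z = 0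

/-- The same for the geometrically integral rational `X` of dimension `2i - 1` only. -/
def InjRat (K : IntermediateField ℚ ℂ) : Prop :=
  ∀ (X : T.Var K) (i : ℕ), 1 ≤ i → T.rat X → T.dim X + 1 = 2 * i →
    ∀ z : T.A X i, T.aj X i (incl K) z = 0 → z = 0

/-- For all smooth projective `K`-schemes `X` and all `i ≥ 1`, a cycle of `CH^i(X)^0` which is in
the kernels of the Abel–Jacobi maps of all the complex varieties `X_σ` is torsion. -/
def InjAll (K : IntermediateField ℚ ℂ) : Prop :=
  ∀ (X : T.Var K) (i : ℕ), 1 ≤ i → ∀ z : T.A X i, (∀ σ : Emb K, T.aj X i σ z = 0) → z = 0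

/-- The kernel of the Abel–Jacobi map of `X_σ` does not depend on `σ`. -/
def Indep (K : IntermediateField ℚ ℂ) : Prop :=
  ∀ (X : T.Var K) (i : ℕ), 1 ≤ i → ∀ (z : T.A X i) (σ τ : Emb K),
    T.aj X i σ z = 0 → T.aj X i τ z = 0

end Sys

/-- `K` is stable under complex conjugation. -/
def ConjStable (K : IntermediateField ℚ ℂ) : Prop := ∀ x ∈ K, conj x ∈ K

/-- `K` is an imaginary quadratic field. -/
def IsImaginaryQuadratic (K : IntermediateField ℚ ℂ) : Prop :=
  Module.finrank ℚ K = 2 ∧ ¬ K ≤ reals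

/-- `F` is totally real: all its complex embeddings are real. -/
def IsTotallyReal (F : IntermediateField ℚ ℂ) : Prop :=
  FiniteDimensional ℚ F ∧ ∀ (σ : Emb F) (x : F), σ x ∈ reals

/-- `K` is a CM field: a quadratic extension, without real embeddings, of a totally real field. -/
def IsCM (K : IntermediateField ℚ ℂ) : Prop :=
  FiniteDimensional ℚ K ∧ (∀ σ : Emb K, ∃ x : K, σ x ∉ reals) ∧
    ∃ F : IntermediateField ℚ ℂ, ∃ h : F ≤ K, IsTotallyReal F ∧
      Module.finrank F (extendScalars h) = 2

end Pool.Agent.X264.AJ
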