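import Pool.Agent.X264.AJ.Defs

/-!
# Abel–Jacobi maps over number fields: conjugation, restriction of scalars, blow-ups
-/

set_option autoImplicit false

open IntermediateField

namespace Pool.Agent.X264.AJ

universe u

/-! ### Subfields of `ℂ` -/

lemma mem_reals {x : ℂ} : x ∈ reals ↔ ∃ r : ℝ, (r : ℂ) = x := by
  unfold reals
  rw [AlgHom.mem_fieldRange]
  rfl

lemma mem_reals_conj {x : ℂ} : x ∈ reals ↔ conj x = x := by
  rw [mem_reals]
  constructor
  · rintro ⟨r, rfl⟩
    exact Complex.conj_ofReal r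
  · intro h
    exact Complex.conj_eq_iff_real.mp h |>.imp fun r hr => hr.symm

lemma conj_conj (x : ℂ) : conj (conj x) = x := Complex.conj_conj x

lemma incl_apply {K : IntermediateField ℚ ℂ} (x : K) : incl K x = (x : ℂ) := rfl

lemma res_incl {K L : IntermediateField ℚ ℂ} (h : K ≤ L) : res h (incl L) = incl K := by
  ext x
  rfl

lemma res_apply {K L : IntermediateField ℚ ℂ} (h : K ≤ L) (τ : Emb L) (x : K) :
    res h τ x = τ ⟨x, h x.2⟩ := rfl

lemma emb_bot (σ τ : Emb (⊥ : IntermediateField ℚ ℂ)) : σ = τ := by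
  ext ⟨x, hx⟩
  obtain ⟨q, hq⟩ := IntermediateField.mem_bot.mp hx
  have h : (⟨x, hx⟩ : (⊥ : IntermediateField ℚ ℂ)) = algebraMap ℚ _ q := by
    apply Subtype.ext
    exact hq.symm
  rw [h, AlgHom.commutes, AlgHom.commutes]

/-- The embeddings of `K` which extend the inclusion of `K ∩ ℝ`. -/
lemma emb_cases {K : IntermediateField ℚ ℂ} (hK : ConjStable K) (τ : Emb K)
    (h : res (inf_le_left : K ⊓ reals ≤ K) τ = incl (K ⊓ reals)) :
    τ = incl K ∨ τ = bar (incl K) := by
  -- `τ` is the identity on the real elements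
  have h1 : ∀ (x : ℂ) (hx : x ∈ K), x ∈ reals → τ ⟨x, hx⟩ = x := by
    intro x hx hr
    have := DFunLike.congr_fun h (⟨x, hx, hr⟩ : ↥(K ⊓ reals))
    exact this
  by_cases hall : ∀ x ∈ K, x ∈ reals
  · left
    ext ⟨x, hx⟩
    exact h1 x hx (hall x hx)
  · push Not at hall
    obtain ⟨θ, hθ, hθr⟩ := hall
    have hc : conj θ ∈ K := hK θ hθ
    have hne : θ - conj θ ≠ 0 := by
      intro h0
      exact hθr (mem_reals_conj.mpr (sub_eq_zero.mp h0).symm)
    -- the values on `K` are determined by the value at `θ`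
    have h2 : ∀ (y : ℂ) (hy : y ∈ K), ∃ a b : ℂ, ∃ (ha : a ∈ K) (hb : b ∈ K), a ∈ reals ∧
        b ∈ reals ∧ y = a + b * θ := by
      intro y hy
      have hcy : conj y ∈ K := hK y hy
      have hb : (y - conj y) / (θ - conj θ) ∈ K := K.div_mem (K.sub_mem hy hcy) (K.sub_mem hθ hc)
      have hbr : (y - conj y) / (θ - conj θ) ∈ reals := by
        rw [mem_reals_conj, map_div₀, map_sub, map_sub, conj_conj, conj_conj,
          ← neg_sub y, ← neg_sub θ, neg_div_neg_eq]
      refine ⟨y - (y - conj y) / (θ - conj θ) * θ, (y - conj y) / (θ - conj θ),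
        K.sub_mem hy (K.mul_mem hb hθ), hb, ?_, hbr, by ring⟩
      rw [mem_reals_conj, map_sub, map_mul, mem_reals_conj.mp hbr]
      have h3 : (y - conj y) / (θ - conj θ) * (θ - conj θ) = y - conj y := div_mul_cancel₀ _ hne
      linear_combination h3
    -- the value at `θ`
    have hs : θ + conj θ ∈ reals := by
      rw [mem_reals_conj, map_add, conj_conj, add_comm]
    have hp : θ * conj θ ∈ reals := by
      rw [mem_reals_conj, map_mul, conj_conj, mul_comm]
    have h4 : τ ⟨θ, hθ⟩ * τ ⟨θ, hθ⟩ - (θ + conj θ) * τ ⟨θ, hθ⟩ + θ * conj θ = 0 := by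
      have e1 := h1 _ (K.add_mem hθ hc) hs
      have e2 := h1 _ (K.mul_mem hθ hc) hp
      have e3 : (⟨θ, hθ⟩ : K) * ⟨θ, hθ⟩ - ⟨_, K.add_mem hθ hc⟩ * ⟨θ, hθ⟩ +
          ⟨_, K.mul_mem hθ hc⟩ = 0 := by
        apply Subtype.ext
        change θ * θ - (θ + conj θ) * θ + θ * conj θ = 0
        ring
      have e4 := congrArg τ e3
      rw [map_add, map_sub, map_mul, map_mul, e1, e2, map_zero] at e4
      exact e4
    have h5 : (τ ⟨θ, hθ⟩ - θ) * (τ ⟨θ, hθ⟩ - conj θ) = 0 := by linear_combination h4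
    have h6 : ∀ (y : ℂ) (hy : y ∈ K) (a b : ℂ) (ha : a ∈ K) (hb : b ∈ K), a ∈ reals → b ∈ reals →
        y = a + b * θ → τ ⟨y, hy⟩ = a + b * τ ⟨θ, hθ⟩ := by
      intro y hy a b ha hb har hbr hab
      have e : (⟨y, hy⟩ : K) = ⟨a, ha⟩ + ⟨b, hb⟩ * ⟨θ, hθ⟩ := Subtype.ext hab
      rw [e, map_add, map_mul, h1 a ha har, h1 b hb hbr]
    rcases mul_eq_zero.mp h5 with h7 | h7
    · left
      ext ⟨y, hy⟩
      obtain ⟨a, b, ha, hb, har, hbr, hab⟩ := h2 y hy
      rw [h6 y hy a b ha hb har hbr hab, sub_eq_zero.mp h7]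
      exact hab.symm
    · right
      ext ⟨y, hy⟩
      obtain ⟨a, b, ha, hb, har, hbr, hab⟩ := h2 y hy
      rw [h6 y hy a b ha hb har hbr hab, sub_eq_zero.mp h7]
      change _ = conj y
      rw [hab, map_add, map_mul, mem_reals_conj.mp har, mem_reals_conj.mp hbr]

/-- A number field is contained in a number field stable under conjugation. -/
lemma exists_conjStable (K : IntermediateField ℚ ℂ) (hK : FiniteDimensional ℚ K) :
    ∃ L : IntermediateField ℚ ℂ, K ≤ L ∧ FiniteDimensional ℚ L ∧ ConjStable L := by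
  have h1 : FiniteDimensional ℚ (K.map conj) :=
    LinearEquiv.finiteDimensional (K.equivMap conj).toLinearEquiv
  refine ⟨K ⊔ K.map conj, le_sup_left, inferInstance, ?_⟩
  intro x hx
  have h2 : conj x ∈ (K ⊔ K.map conj).map conj := ⟨x, hx, rfl⟩
  rw [IntermediateField.map_sup] at h2
  have h3 : (K.map conj).map conj = K := by
    ext y
    constructor
    · rintro ⟨z, ⟨w, hw, rfl⟩, rfl⟩
      change conj (conj w) ∈ K
      rw [conj_conj]
      exact hw
    · intro hy
      exact ⟨conj y, ⟨y, hy, rfl⟩, conj_conj y⟩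
  rw [h3, sup_comm] at h2
  exact h2

/-- A quadratic extension of a real field is stable under conjugation. -/
lemma quad_stable {F K : IntermediateField ℚ ℂ} (h : F ≤ K) (hF : F ≤ reals)
    (h2 : Module.finrank F (extendScalars h) = 2) (hK : ¬ K ≤ reals) :
    ConjStable K ∧ K ⊓ reals = F := by
  obtain ⟨θ, hθ, hθr⟩ : ∃ θ ∈ K, θ ∉ reals := by
    by_contra h0
    push Not at h0
    exact hK h0
  have : FiniteDimensional F (extendScalars h) :=
    Module.finite_of_finrank_pos (by rw [h2]; norm_num)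
  have hθF : θ ∉ F := fun h0 => hθr (hF h0)
  -- `1` and `θ` are a basis
  let v : Fin 2 → extendScalars h := ![1, ⟨θ, hθ⟩]
  have hv : LinearIndependent F v := by
    rw [LinearIndependent.pair_iff]
    intro s t hst
    have e : (s : ℂ) + (t : ℂ) * θ = 0 := by
      have := congrArg (fun z : extendScalars h => (z : ℂ)) hst
      simpa [Algebra.smul_def] using this
    have ht : t = 0 := by
      by_contra ht
      apply hθF
      have ht' : (t : ℂ) ≠ 0 := fun h0 => ht (Subtype.ext h0)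
      have : θ = -(s : ℂ) / (t : ℂ) := by
        field_simp
        linear_combination e
      rw [this]
      exact F.div_mem (F.neg_mem s.2) t.2
    refine ⟨?_, ht⟩
    rw [ht] at e
    have : (s : ℂ) = 0 := by simpa using e
    exact Subtype.ext this
  have hspan : ∀ y ∈ K, ∃ a b : ℂ, a ∈ F ∧ b ∈ F ∧ y = a + b * θ := by
    intro y hy
    have h3 : Submodule.span F (Set.range v) = ⊤ :=
      hv.span_eq_top_of_card_eq_finrank (by rw [h2]; simp)
    have h4 : (⟨y, hy⟩ : extendScalars h) ∈ Submodule.span F (Set.range v) := by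
      rw [h3]; trivial
    obtain ⟨c, hc⟩ := (Submodule.mem_span_range_iff_exists_fun F).mp h4
    refine ⟨c 0, c 1, (c 0).2, (c 1).2, ?_⟩
    have := congrArg (fun z : extendScalars h => (z : ℂ)) hc
    simp only [Fin.sum_univ_two] at this
    have e : ((c 0 • v 0 + c 1 • v 1 : extendScalars h) : ℂ) = (c 0 : ℂ) + (c 1 : ℂ) * θ := by
      simp [v, Algebra.smul_def]
    rw [e] at this
    exact this.symm
  have hconj : conj θ ∈ K := by
    obtain ⟨a, b, ha, hb, hab⟩ := hspan (θ * θ) (K.mul_mem hθ hθ)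
    have h5 : conj θ * conj θ = a + b * conj θ := by
      rw [← map_mul, hab, map_add, map_mul, mem_reals_conj.mp (hF ha), mem_reals_conj.mp (hF hb)]
    have hne : θ - conj θ ≠ 0 := by
      intro h0
      exact hθr (mem_reals_conj.mpr (sub_eq_zero.mp h0).symm)
    have h6 : (θ - conj θ) * (θ + conj θ - b) = 0 := by linear_combination hab - h5
    have h7 : conj θ = b - θ := by
      rcases mul_eq_zero.mp h6 with h8 | h8
      · exact absurd h8 hne
      · linear_combination h8
    rw [h7]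
    exact K.sub_mem (h hb) hθ
  constructor
  · intro y hy
    obtain ⟨a, b, ha, hb, hab⟩ := hspan y hy
    rw [hab, map_add, map_mul, mem_reals_conj.mp (hF ha), mem_reals_conj.mp (hF hb)]
    exact K.add_mem (h ha) (K.mul_mem (h hb) hconj)
  · apply le_antisymm
    · rintro y ⟨hy, hyr⟩
      obtain ⟨a, b, ha, hb, hab⟩ := hspan y hy
      have h8 : b = 0 := by
        by_contra hb0
        apply hθr
        have : θ = (y - a) / b := by
          field_simp
          linear_combination -hab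
        rw [this]
        exact reals.div_mem (reals.sub_mem hyr (hF ha)) (hF hb)
      rw [h8] at hab
      rw [hab]
      simpa using ha
    · exact le_inf h hF

lemma bot_le_reals : (⊥ : IntermediateField ℚ ℂ) ≤ reals := bot_le

lemma imquad_stable {K : IntermediateField ℚ ℂ} (hK : IsImaginaryQuadratic K) :
    FiniteDimensional ℚ K ∧ ConjStable K ∧ K ⊓ reals = ⊥ := by
  have hfd : FiniteDimensional ℚ K := Module.finite_of_finrank_pos (by rw [hK.1]; norm_num)
  refine ⟨hfd, quad_stable (F := ⊥) bot_le bot_le ?_ hK.2⟩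
  have h1 : Module.finrank ℚ (⊥ : IntermediateField ℚ ℂ) = 1 := IntermediateField.finrank_bot
  have h2 : Module.finrank ℚ (⊥ : IntermediateField ℚ ℂ) *
      Module.finrank (⊥ : IntermediateField ℚ ℂ) (extendScalars (bot_le : ⊥ ≤ K)) =
      Module.finrank ℚ (extendScalars (bot_le : (⊥ : IntermediateField ℚ ℂ) ≤ K)) :=
    Module.finrank_mul_finrank _ _ _
  rw [h1, one_mul] at h2
  rw [h2]
  exact hK.1

lemma totallyReal_le {F : IntermediateField ℚ ℂ} (hF : IsTotallyReal F) : F ≤ reals :=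
  fun x hx => hF.2 (incl F) ⟨x, hx⟩

lemma cm_stable {K : IntermediateField ℚ ℂ} (hK : IsCM K) :
    ConjStable K ∧ IsTotallyReal (K ⊓ reals) := by
  obtain ⟨-, h1, F, h, hF, h2⟩ := hK
  have h3 : ¬ K ≤ reals := by
    intro h4
    obtain ⟨x, hx⟩ := h1 (incl K)
    exact hx (h4 x.2)
  obtain ⟨h5, h6⟩ := quad_stable h (totallyReal_le hF) h2 h3
  exact ⟨h5, h6 ▸ hF⟩

/-- A totally real field `F` is contained in the CM field `F(i)`. -/
lemma exists_cm {F : IntermediateField ℚ ℂ} (hF : IsTotallyReal F) :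
    ∃ K : IntermediateField ℚ ℂ, F ≤ K ∧ IsCM K := by
  have hI : Complex.I * Complex.I = -1 := Complex.I_mul_I
  have hIr : Complex.I ∉ reals := by
    rw [mem_reals]
    rintro ⟨r, hr⟩
    have := congrArg Complex.im hr
    simp at this
  have hint : IsIntegral F Complex.I := by
    refine ⟨Polynomial.X ^ 2 + 1, ?_, ?_⟩
    · monicity!
    · simp [Polynomial.eval₂_add, Polynomial.eval₂_pow]
  let K' : IntermediateField F ℂ := F⟮Complex.I⟯
  let K : IntermediateField ℚ ℂ := K'.restrictScalars ℚ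
  have h : F ≤ K := by
    intro x hx
    exact K'.algebraMap_mem ⟨x, hx⟩
  have hIK : Complex.I ∈ K := mem_adjoin_simple_self F Complex.I
  have hext : extendScalars h = K' := by
    ext x
    rfl
  have hfr : Module.finrank F K' = 2 := by
    change Module.finrank F F⟮Complex.I⟯ = 2
    rw [IntermediateField.adjoin.finrank hint]
    have h1 : minpoly F Complex.I ∣ (Polynomial.X ^ 2 + 1 : Polynomial F) := by
      apply minpoly.dvd
      simp
    have h2 : (Polynomial.X ^ 2 + 1 : Polynomial F).natDegree = 2 := by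
      compute_degree!
    have hne : (Polynomial.X ^ 2 + 1 : Polynomial F) ≠ 0 := by
      intro h0
      rw [h0] at h2
      simp at h2
    have h3 : (minpoly F Complex.I).natDegree ≤ 2 := by
      rw [← h2]
      exact Polynomial.natDegree_le_of_dvd h1 hne
    have h4 : 2 ≤ (minpoly F Complex.I).natDegree := by
      rw [minpoly.two_le_natDegree_iff hint]
      rintro ⟨x, hx⟩
      apply hIr
      have : Complex.I ∈ F := by
        rw [← hx]
        exact x.2
      exact totallyReal_le hF this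
    omega
  have : FiniteDimensional ℚ F := hF.1
  have : FiniteDimensional F K' := Module.finite_of_finrank_pos (by rw [hfr]; norm_num)
  have hfd : FiniteDimensional ℚ K := by
    change FiniteDimensional ℚ K'
    exact FiniteDimensional.trans ℚ F K'
  refine ⟨K, h, hfd, ?_, F, h, hF, by rw [hext]; exact hfr⟩
  intro σ
  refine ⟨⟨Complex.I, hIK⟩, ?_⟩
  rw [mem_reals]
  rintro ⟨r, hr⟩
  have h5 : (⟨Complex.I, hIK⟩ : K) * ⟨Complex.I, hIK⟩ = -1 := Subtype.ext hI
  have h6 := congrArg σ h5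
  rw [map_mul, ← hr, map_neg, map_one] at h6
  have h7 := congrArg Complex.re h6
  simp at h7
  nlinarith [mul_self_nonneg r]

/-! ### Abel–Jacobi maps -/

namespace Sys

variable {T : Sys.{u}}

lemma Inj.of_le (hT : T.IsAJ) {K L : IntermediateField ℚ ℂ} (h : K ≤ L)
    (hL : FiniteDimensional ℚ L) (h1 : T.Inj L) : T.Inj K := by
  intro X i hi z hz
  obtain ⟨X', hX'⟩ := hT.baseChange h hL X
  obtain ⟨f, hf, hk⟩ := hX' i
  apply hf
  rw [map_zero]
  refine h1 X' i hi _ ((hk _ _).mpr ?_)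
  intro τ hτ
  rw [Set.mem_singleton_iff, res_incl] at hτ
  rw [hτ]
  exact hz

lemma Inj.of_real (hT : T.IsAJ) {K : IntermediateField ℚ ℂ} (hK : FiniteDimensional ℚ K)
    (hc : ConjStable K) (h1 : T.Inj (K ⊓ reals)) : T.Inj K := by
  intro X i hi z hz
  obtain ⟨X', hX'⟩ := hT.restriction (inf_le_left : K ⊓ reals ≤ K) hK X
  obtain ⟨f, hf, hk⟩ := hX' i
  apply hf
  rw [map_zero]
  refine h1 X' i hi _ ((hk _ _).mpr ?_)
  intro τ hτ
  rcases emb_cases hc τ hτ with rfl | rfl
  · exact hz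
  · exact (hT.conjugation X i _ z).mpr hz

lemma inj_iff_real (hT : T.IsAJ) {K : IntermediateField ℚ ℂ} (hK : FiniteDimensional ℚ K)
    (hc : ConjStable K) : T.Inj K ↔ T.Inj (K ⊓ reals) :=
  ⟨Inj.of_le hT inf_le_left hK, Inj.of_real hT hK hc⟩

lemma inj_iff_rat (hT : T.IsAJ) (K : IntermediateField ℚ ℂ) : T.Inj K ↔ T.InjRat K := by
  constructor
  · intro h X i hi _ _ z hz
    exact h X i hi z hz
  · intro h X i hi z hz
    obtain ⟨R, hR, hk⟩ := hT.blowUp X
    -- the number of parameters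
    have key : ∃ n j, j ≤ n ∧ T.dim R + n + 1 = 2 * (i + 1 + j) := by
      by_cases h1 : 2 * i + 1 ≤ T.dim R
      · exact ⟨T.dim R - (2 * i + 1), T.dim R - (2 * i + 1), le_rfl, by omega⟩
      · exact ⟨2 * i + 1 - T.dim R, 0, Nat.zero_le _, by omega⟩
    obtain ⟨n, j, hj, hn⟩ := key
    obtain ⟨R', hd, hr, hk'⟩ := hT.projectiveSpaces R n
    obtain ⟨f, hf, hkf⟩ := hk i
    obtain ⟨g, hg, hkg⟩ := hk' (i + 1) j hj
    apply hf
    rw [map_zero]
    apply hg
    rw [map_zero]
    refine h R' (i + 1 + j) (by omega) (hr hR) (by rw [hd]; exact hn) _ ((hkg _ _).mpr ?_)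
    intro τ hτ
    rw [Set.mem_singleton_iff] at hτ
    subst hτ
    refine (hkf _ _).mpr ?_
    intro τ hτ
    rw [Set.mem_singleton_iff] at hτ
    subst hτ
    exact hz

lemma inj_iff_all (hT : T.IsAJ) {K : IntermediateField ℚ ℂ} (hK : FiniteDimensional ℚ K) :
    T.Inj ⊥ ↔ T.InjAll K := by
  constructor
  · intro h X i hi z hz
    obtain ⟨X', hX'⟩ := hT.restriction (bot_le : ⊥ ≤ K) hK X
    obtain ⟨f, hf, hk⟩ := hX' i
    apply hf
    rw [map_zero]
    exact h X' i hi _ ((hk _ _).mpr fun τ _ => hz τ)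
  · intro h X i hi z hz
    obtain ⟨X', hX'⟩ := hT.baseChange (bot_le : ⊥ ≤ K) hK X
    obtain ⟨f, hf, hk⟩ := hX' i
    apply hf
    rw [map_zero]
    refine h X' i hi _ fun σ => (hk _ _).mpr ?_
    intro τ _
    rw [emb_bot τ (incl ⊥)]
    exact hz

lemma Inj.emb (hT : T.IsAJ) (h : ∀ K : IntermediateField ℚ ℂ, FiniteDimensional ℚ K → T.Inj K)
    {K : IntermediateField ℚ ℂ} (hK : FiniteDimensional ℚ K) (X : T.Var K) (i : ℕ) (hi : 1 ≤ i)
    (z : T.A X i) (σ : Emb K) (hz : T.aj X i σ z = 0) : z = 0 := by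
  let K' : IntermediateField ℚ ℂ := σ.fieldRange
  let e : K ≃ₐ[ℚ] K' := AlgEquiv.ofInjectiveField σ
  have hK' : FiniteDimensional ℚ K' := LinearEquiv.finiteDimensional e.toLinearEquiv
  obtain ⟨X', hX'⟩ := hT.transport e hK X
  obtain ⟨f, hf, hk⟩ := hX' i
  apply hf
  rw [map_zero]
  refine h K' hK' X' i hi _ ((hk _ _).mpr ?_)
  intro τ hτ
  have h1 : τ = σ := by
    rw [Set.mem_singleton_iff.mp hτ]
    ext x
    rfl
  rw [h1]
  exact hz

lemma all_iff_indep (hT : T.IsAJ) :
    (∀ K : IntermediateField ℚ ℂ, FiniteDimensional ℚ K → T.Inj K) ↔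
      T.Inj ⊥ ∧ ∀ K : IntermediateField ℚ ℂ, FiniteDimensional ℚ K → T.Indep K := by
  constructor
  · intro h
    refine ⟨h ⊥ inferInstance, ?_⟩
    intro K hK X i hi z σ τ hz
    rw [Inj.emb hT h hK X i hi z σ hz, map_zero]
  · rintro ⟨h, h1⟩ K hK X i hi z hz
    exact (inj_iff_all hT hK).mp h X i hi z fun σ => h1 K hK X i hi z _ σ hz

lemma all_iff_real (hT : T.IsAJ) :
    (∀ K : IntermediateField ℚ ℂ, FiniteDimensional ℚ K → T.Inj K) ↔
      ∀ K : IntermediateField ℚ ℂ, FiniteDimensional ℚ K → K ≤ reals → T.InjRat K := by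
  constructor
  · intro h K hK _
    exact (inj_iff_rat hT K).mp (h K hK)
  · intro h K hK
    obtain ⟨L, hKL, hL, hc⟩ := exists_conjStable K hK
    refine Inj.of_le hT hKL hL (Inj.of_real hT hL hc ((inj_iff_rat hT _).mpr ?_))
    have h2 : FiniteDimensional ℚ ↥(L ⊓ reals) :=
      FiniteDimensional.of_injective (inclusion (inf_le_left : L ⊓ reals ≤ L)).toLinearMap
        (inclusion (inf_le_left : L ⊓ reals ≤ L)).injective
    exact h _ h2 inf_le_right

lemma cm_iff_totallyReal (hT : T.IsAJ) :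
    (∀ K : IntermediateField ℚ ℂ, IsCM K → T.Inj K) ↔
      ∀ F : IntermediateField ℚ ℂ, IsTotallyReal F → T.InjRat F := by
  constructor
  · intro h F hF
    obtain ⟨K, hFK, hK⟩ := exists_cm hF
    exact (inj_iff_rat hT F).mp (Inj.of_le hT hFK hK.1 (h K hK))
  · intro h K hK
    obtain ⟨hc, hr⟩ := cm_stable hK
    exact Inj.of_real hT hK.1 hc ((inj_iff_rat hT _).mpr (h _ hr))

end Sys

end Pool.Agent.X264.AJ
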